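import Mathlib

open Set Filter Topology

namespace Pool.Agent.Results.MP_591444_an.ClosedSubalgebra

/-- The structure of a Fréchet algebra on the commutative unital complex algebra `A`: an increasing
sequence of submultiplicative seminorms `p m` which separates the points of `A` and for which `A`
is complete. -/
structure FrechetAlgebra (A : Type) [CommRing A] [Algebra ℂ A] where
  /-- the seminorms -/
  p : ℕ → Seminorm ℂ A
  mono : ∀ m x, p m x ≤ p (m + 1) x
  submul : ∀ m x y, p m (x * y) ≤ p m x * p m y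
  sep : ∀ x, (∀ m, p m x = 0) → x = 0
  complete : ∀ u : ℕ → A, (∀ m, ∀ ε > 0, ∃ N, ∀ i ≥ N, ∀ j ≥ N, p m (u i - u j) < ε) →
    ∃ x, ∀ m, Tendsto (fun n => p m (u n - x)) atTop (𝓝 0)

section defs

variable {A : Type} [CommRing A] [Algebra ℂ A]

/-- The spectrum `M(A)`: the non-zero (equivalently unital) complex homomorphisms which are
continuous, that is, bounded by a multiple of one of the seminorms. -/
def Spectrum (F : FrechetAlgebra A) : Type :=
  {φ : A →ₐ[ℂ] ℂ // ∃ m : ℕ, ∃ C : ℝ, ∀ x, ‖φ x‖ ≤ C * F.p m x}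

/-- The Gel'fand topology of `M(A)`: the topology of pointwise convergence on `A`. -/
noncomputable instance gelfandTopology (F : FrechetAlgebra A) : TopologicalSpace (Spectrum F) :=
  TopologicalSpace.induced (fun φ : Spectrum F => fun x : A => φ.1 x) inferInstance

/-- The Gel'fand transform of `x`, restricted to the subset `Y` of `M(A)`. -/
def gelfand (F : FrechetAlgebra A) (Y : Set (Spectrum F)) (x : A) : C(Y, ℂ) where
  toFun y := y.1.1 x
  continuous_toFun := by
    have h : Continuous (fun φ : Spectrum F => fun x : A => φ.1 x) := continuous_induced_dom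
    exact (continuous_apply x).comp (h.comp continuous_subtype_val)

/-- `B` is a closed (unital) subalgebra of the Fréchet algebra `A`. -/
def IsClosedSubalgebra (F : FrechetAlgebra A) (B : Subalgebra ℂ A) : Prop :=
  ∀ (u : ℕ → A) (x : A), (∀ n, u n ∈ B) → (∀ m, Tendsto (fun n => F.p m (u n - x)) atTop (𝓝 0)) →
    x ∈ B

/-- The induced Fréchet algebra structure on a closed subalgebra. -/
noncomputable def FrechetAlgebra.restrict (F : FrechetAlgebra A) (B : Subalgebra ℂ A)
    (hB : IsClosedSubalgebra F B) : FrechetAlgebra B where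
  p m := (F.p m).comp B.val.toLinearMap
  mono m x := F.mono m x
  submul m x y := F.submul m x y
  sep x hx := Subtype.ext (F.sep x hx)
  complete u hu := by
    obtain ⟨x, hx⟩ := F.complete (fun n => (u n : A)) hu
    exact ⟨⟨x, hB _ x (fun n => (u n).2) hx⟩, hx⟩

end defs

/-- `V` is an analytic subset of the open set `Ω` of `ℂⁿ`: locally in `Ω` it is the set of common
zeros of finitely many holomorphic functions. -/
def IsAnalyticSubset {n : ℕ} (Ω V : Set (Fin n → ℂ)) : Prop :=
  V ⊆ Ω ∧ ∀ a ∈ Ω, ∃ U : Set (Fin n → ℂ), IsOpen U ∧ a ∈ U ∧ U ⊆ Ω ∧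
    ∃ S : Set ((Fin n → ℂ) → ℂ), S.Finite ∧ (∀ f ∈ S, AnalyticOnNhd ℂ f U) ∧
      ∀ z ∈ U, z ∈ V ↔ ∀ f ∈ S, f z = 0

/-- The structure of a reduced complex space on the topological space `Y` (Hausdorff with a
countable base). `holAt y` is the set of the functions that are holomorphic near `y`. Every point
has an open neighbourhood `W` with a homeomorphism `e` onto an analytic subset `V` of an open subset
`Ω` of some `ℂⁿ`, such that near each `w ∈ W` the holomorphic functions are those of the form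
`F ∘ e` with `F` holomorphic near `e w` in `ℂⁿ`. -/
structure ReducedComplexSpace (Y : Type) [TopologicalSpace Y] where
  /-- the functions holomorphic near a point -/
  holAt : Y → Set (Y → ℂ)
  t2 : T2Space Y
  countableBase : SecondCountableTopology Y
  chart : ∀ y : Y, ∃ (n : ℕ) (W : Set Y) (Ω V : Set (Fin n → ℂ)) (e : W ≃ₜ V),
    IsOpen W ∧ y ∈ W ∧ IsOpen Ω ∧ IsAnalyticSubset Ω V ∧
      ∀ (w : W) (f : Y → ℂ), f ∈ holAt w ↔ ∃ F : (Fin n → ℂ) → ℂ, AnalyticAt ℂ F (e w) ∧
        ∀ᶠ w' : W in 𝓝 w, f w' = F (e w')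

/-- The algebra `Hol(Y)` of the holomorphic functions on `Y`. -/
def ReducedComplexSpace.Hol {Y : Type} [TopologicalSpace Y] (S : ReducedComplexSpace Y) :
    Set (Y → ℂ) := {f | ∀ y, f ∈ S.holAt y}

/-- `Y` is a reduced Stein space: the holomorphic functions separate the points, and the
holomorphically convex hull of each compact set is compact. -/
def ReducedComplexSpace.IsStein {Y : Type} [TopologicalSpace Y] (S : ReducedComplexSpace Y) :
    Prop :=
  (∀ y z : Y, y ≠ z → ∃ f ∈ S.Hol, f y ≠ f z) ∧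
    ∀ K : Set Y, IsCompact K →
      IsCompact {y : Y | ∀ f ∈ S.Hol, ∀ M : ℝ, (∀ k ∈ K, ‖f k‖ ≤ M) → ‖f y‖ ≤ M}

/-- The Fréchet algebra `A` is locally Stein: some non-empty open subset `Y` of `M(A)` has a
structure of a reduced Stein space (with its Gel'fand topology) such that the restrictions to `Y`
of all Gel'fand transforms are holomorphic and the closure of the set of these restrictions in
`C(Y)`, for the compact-open topology, is `Hol(Y)`. -/
def IsLocallyStein {A : Type} [CommRing A] [Algebra ℂ A] (F : FrechetAlgebra A) : Prop :=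
  ∃ Y : Set (Spectrum F), IsOpen Y ∧ Y.Nonempty ∧ ∃ S : ReducedComplexSpace Y, S.IsStein ∧
    (∀ x : A, ⇑(gelfand F Y x) ∈ S.Hol) ∧
      ∀ f : C(Y, ℂ), f ∈ closure (Set.range (gelfand F Y)) ↔ ⇑f ∈ S.Hol

/-! ### The algebra -/

/-- Entire functions. -/
def Ent : Subalgebra ℂ (ℂ → ℂ) where
  carrier := {f | Differentiable ℂ f}
  mul_mem' hf hg := hf.mul hg
  add_mem' hf hg := hf.add hg
  algebraMap_mem' r := differentiable_const r

/-- The algebra `Hol(ℂ) × C([0,1])`. -/
abbrev AA : Type := Ent × C(unitInterval, ℂ)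

theorem Ent.diff (f : Ent) : Differentiable ℂ (f : ℂ → ℂ) := f.2

/-- Restriction of an entire function to a disc. -/
def res (m : ℕ) : AA →ₗ[ℂ] C(Metric.closedBall (0 : ℂ) m, ℂ) where
  toFun x := ⟨fun z => (x.1 : ℂ → ℂ) z, (Ent.diff x.1).continuous.comp continuous_subtype_val⟩
  map_add' x y := by ext; rfl
  map_smul' c x := by ext; rfl

theorem res_mul (m : ℕ) (x y : AA) : res m (x * y) = res m x * res m y := by ext; rfl

theorem res_apply (m : ℕ) (x : AA) (z : Metric.closedBall (0 : ℂ) (m : ℝ)) :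
    res m x z = (x.1 : ℂ → ℂ) z := rfl

/-- The seminorms of the algebra. -/
noncomputable def pp (m : ℕ) : Seminorm ℂ AA :=
  (normSeminorm ℂ C(Metric.closedBall (0 : ℂ) m, ℂ)).comp (res m) ⊔
    (normSeminorm ℂ C(unitInterval, ℂ)).comp (LinearMap.snd ℂ Ent C(unitInterval, ℂ))

theorem pp_apply (m : ℕ) (x : AA) : pp m x = max ‖res m x‖ ‖x.2‖ := rfl

theorem le_pp {m : ℕ} (x : AA) {z : ℂ} (hz : ‖z‖ ≤ m) : ‖(x.1 : ℂ → ℂ) z‖ ≤ pp m x := by
  rw [pp_apply]
  exact ((res m x).norm_coe_le_norm ⟨z, by simpa using hz⟩).trans (le_max_left _ _)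

theorem pp_le {m : ℕ} (x : AA) {C : ℝ} (hC : 0 ≤ C)
    (h1 : ∀ z : ℂ, ‖z‖ ≤ m → ‖(x.1 : ℂ → ℂ) z‖ ≤ C) (h2 : ‖x.2‖ ≤ C) : pp m x ≤ C := by
  rw [pp_apply]
  exact max_le ((ContinuousMap.norm_le _ hC).2 fun z => h1 z (mem_closedBall_zero_iff.1 z.2)) h2

theorem norm_snd_le (m : ℕ) (x : AA) : ‖x.2‖ ≤ pp m x := le_max_right _ _

/-- The Fréchet algebra structure of `Hol(ℂ) × C([0,1])`. -/
noncomputable def FA : FrechetAlgebra AA where
  p := pp
  mono m x := pp_le x (apply_nonneg _ _) (fun z hz => le_pp x (hz.trans (by push_cast; linarith)))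
    (norm_snd_le _ x)
  submul m x y := by
    refine pp_le _ (mul_nonneg (apply_nonneg _ _) (apply_nonneg _ _)) (fun z hz => ?_) ?_
    · change ‖(x.1 : ℂ → ℂ) z * (y.1 : ℂ → ℂ) z‖ ≤ _
      rw [norm_mul]
      exact mul_le_mul (le_pp x hz) (le_pp y hz) (norm_nonneg _) (apply_nonneg _ _)
    · exact (norm_mul_le _ _).trans
        (mul_le_mul (norm_snd_le _ x) (norm_snd_le _ y) (norm_nonneg _) (apply_nonneg _ _))
  sep x hx := by
    ext z
    · have h1 := le_pp x (m := ⌈‖z‖⌉₊) (Nat.le_ceil _)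
      rw [hx] at h1
      exact norm_le_zero_iff.1 h1
    · have h1 := norm_snd_le 0 x
      rw [hx] at h1
      rw [norm_le_zero_iff.1 h1]
      rfl
  complete u hu := by
    have hc : ∀ z : ℂ, ∃ l, Tendsto (fun n => ((u n).1 : ℂ → ℂ) z) atTop (𝓝 l) := by
      intro z
      refine cauchySeq_tendsto_of_complete (Metric.cauchySeq_iff.2 fun ε hε => ?_)
      obtain ⟨N, hN⟩ := hu ⌈‖z‖⌉₊ ε hε
      refine ⟨N, fun i hi j hj => ?_⟩
      rw [dist_eq_norm]
      exact (le_pp (u i - u j) (Nat.le_ceil _)).trans_lt (hN i hi j hj)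
    choose f hf using hc
    have hd : ∃ g, Tendsto (fun n => (u n).2) atTop (𝓝 g) := by
      refine cauchySeq_tendsto_of_complete (Metric.cauchySeq_iff.2 fun ε hε => ?_)
      obtain ⟨N, hN⟩ := hu 0 ε hε
      refine ⟨N, fun i hi j hj => ?_⟩
      rw [dist_eq_norm]
      exact (norm_snd_le 0 (u i - u j)).trans_lt (hN i hi j hj)
    obtain ⟨g, hg⟩ := hd
    have hunif : ∀ m : ℕ, ∀ ε > 0, ∃ N, ∀ n ≥ N, ∀ z : ℂ, ‖z‖ ≤ m →
        ‖((u n).1 : ℂ → ℂ) z - f z‖ ≤ ε := by
      intro m ε hε
      obtain ⟨N, hN⟩ := hu m ε hε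
      refine ⟨N, fun n hn z hz => ?_⟩
      have h1 : Tendsto (fun j => ‖((u n).1 : ℂ → ℂ) z - ((u j).1 : ℂ → ℂ) z‖) atTop
          (𝓝 ‖((u n).1 : ℂ → ℂ) z - f z‖) := (tendsto_const_nhds.sub (hf z)).norm
      refine le_of_tendsto h1 ?_
      filter_upwards [eventually_ge_atTop N] with j hj
      exact ((le_pp (u n - u j) hz).trans_lt (hN n hn j hj)).le
    have hdiff : Differentiable ℂ f := by
      rw [← differentiableOn_univ]
      refine TendstoLocallyUniformlyOn.differentiableOn
        (F := fun n => ((u n).1 : ℂ → ℂ)) (φ := atTop) ?_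
        (Eventually.of_forall fun n => (Ent.diff (u n).1).differentiableOn) isOpen_univ
      rw [tendstoLocallyUniformlyOn_univ, Metric.tendstoLocallyUniformly_iff]
      intro ε hε z
      obtain ⟨N, hN⟩ := hunif (⌈‖z‖⌉₊ + 1) (ε / 2) (by positivity)
      refine ⟨Metric.ball z 1, Metric.ball_mem_nhds z one_pos, ?_⟩
      filter_upwards [eventually_ge_atTop N] with n hn w hw
      rw [dist_comm, dist_eq_norm]
      refine (hN n hn w ?_).trans_lt (by linarith)
      have h1 : ‖w‖ ≤ ‖z‖ + dist w z := by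
        rw [dist_eq_norm]
        calc ‖w‖ = ‖z + (w - z)‖ := by congr 1; ring
          _ ≤ _ := norm_add_le _ _
      have h2 := Nat.le_ceil ‖z‖
      have h3 := Metric.mem_ball.1 hw
      push_cast
      linarith
    refine ⟨(⟨f, hdiff⟩, g), fun m => ?_⟩
    rw [Metric.tendsto_atTop]
    intro ε hε
    obtain ⟨N, hN⟩ := hunif m (ε / 2) (by positivity)
    obtain ⟨N', hN'⟩ := Metric.tendsto_atTop.1 hg (ε / 2) (by positivity)
    refine ⟨max N N', fun n hn => ?_⟩
    rw [Real.dist_0_eq_abs, abs_of_nonneg (apply_nonneg _ _)]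
    refine (pp_le (m := m) _ (by positivity) (fun z hz => hN n (le_of_max_le_left hn) z hz)
      ?_).trans_lt (half_lt_self hε)
    have := hN' n (le_of_max_le_right hn)
    rw [dist_eq_norm] at this
    exact this.le

/-! ### The subalgebra -/

/-- The subalgebra of the pairs `(F, h)` with `F` constant, equal to `h(0)`. -/
def BB : Subalgebra ℂ AA where
  carrier := {x | ∀ z : ℂ, (x.1 : ℂ → ℂ) z = x.2 0}
  mul_mem' {a b} ha hb z := by
    change (a.1 : ℂ → ℂ) z * (b.1 : ℂ → ℂ) z = a.2 0 * b.2 0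
    rw [ha z, hb z]
  add_mem' {a b} ha hb z := by
    change (a.1 : ℂ → ℂ) z + (b.1 : ℂ → ℂ) z = a.2 0 + b.2 0
    rw [ha z, hb z]
  algebraMap_mem' r z := rfl

theorem BB_closed : IsClosedSubalgebra FA BB := by
  intro u x hu hx z
  have h1 : Tendsto (fun n => ((u n).1 : ℂ → ℂ) z) atTop (𝓝 ((x.1 : ℂ → ℂ) z)) := by
    rw [tendsto_iff_norm_sub_tendsto_zero]
    exact squeeze_zero (fun _ => norm_nonneg _)
      (fun n => le_pp (u n - x) (Nat.le_ceil ‖z‖)) (hx ⌈‖z‖⌉₊)
  have h2 : Tendsto (fun n => (u n).2 0) atTop (𝓝 (x.2 0)) := by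
    rw [tendsto_iff_norm_sub_tendsto_zero]
    exact squeeze_zero (fun _ => norm_nonneg _)
      (fun n => ((u n - x).2.norm_coe_le_norm 0).trans (norm_snd_le 0 (u n - x))) (hx 0)
  refine tendsto_nhds_unique h1 (h2.congr fun n => ?_)
  exact (hu n z).symm

/-- The embedding of `C([0,1])` onto the subalgebra. -/
noncomputable def iota : C(unitInterval, ℂ) →ₐ[ℂ] BB where
  toFun h := ⟨(⟨fun _ => h 0, differentiable_const _⟩, h), fun _ => rfl⟩
  map_one' := rfl
  map_mul' _ _ := rfl
  map_zero' := rfl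
  map_add' _ _ := rfl
  commutes' _ := rfl

theorem iota_snd (b : BB) : iota b.1.2 = b := by
  refine Subtype.ext (Prod.ext (Subtype.ext (funext fun z => ?_)) rfl)
  exact (b.2 z).symm

/-- The Fréchet algebra structure of the subalgebra. -/
noncomputable abbrev FB : FrechetAlgebra BB := FA.restrict BB BB_closed

/-- Evaluation at a point of `[0,1]`. -/
noncomputable def evB (t : unitInterval) : Spectrum FB :=
  ⟨{ toFun := fun b => b.1.2 t
     map_one' := rfl
     map_mul' := fun _ _ => rfl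
     map_zero' := rfl
     map_add' := fun _ _ => rfl
     commutes' := fun _ => rfl }, 0, 1, fun b => by
      rw [one_mul]
      exact (b.1.2.norm_coe_le_norm t).trans (norm_snd_le 0 b.1)⟩

theorem evB_apply (t : unitInterval) (b : BB) : (evB t).1 b = b.1.2 t := rfl

theorem spectrum_t2 {A : Type} [CommRing A] [Algebra ℂ A] (F : FrechetAlgebra A) :
    T2Space (Spectrum F) := by
  have h : Continuous (fun φ : Spectrum F => fun x : A => φ.1 x) := continuous_induced_dom
  refine T2Space.of_injective_continuous (f := fun φ : Spectrum F => fun x : A => φ.1 x) ?_ h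
  intro φ ψ hφ
  exact Subtype.ext (AlgHom.ext fun x => congrFun hφ x)

theorem continuous_evB : Continuous evB := by
  refine continuous_induced_rng.2 (continuous_pi fun b => ?_)
  exact b.1.2.continuous

theorem evB_bijective : Function.Bijective evB := by
  constructor
  · intro s t h
    have h1 : (evB s).1 (iota ⟨fun x => ((x : ℝ) : ℂ), by fun_prop⟩) =
        (evB t).1 (iota ⟨fun x => ((x : ℝ) : ℂ), by fun_prop⟩) := by rw [h]
    have h2 : ((s : ℝ) : ℂ) = ((t : ℝ) : ℂ) := h1
    exact Subtype.ext (Complex.ofReal_injective h2)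
  · intro φ
    obtain ⟨t, ht⟩ := (WeakDual.CharacterSpace.continuousMapEval_bijective
      (X := unitInterval) (𝕜 := ℂ)).2 (WeakDual.CharacterSpace.equivAlgHom.symm (φ.1.comp iota))
    refine ⟨t, Subtype.ext (AlgHom.ext fun b => ?_)⟩
    have h1 := congrArg (fun ψ : WeakDual.characterSpace ℂ C(unitInterval, ℂ) => ψ b.1.2) ht
    have h2 : b.1.2 t = φ.1 (iota b.1.2) := h1
    rw [iota_snd] at h2
    exact h2

/-- If all continuous functions are holomorphic on `Y`, then the points of `Y` are isolated. -/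
theorem isolated {X : Type} [TopologicalSpace X] [NormalSpace X] [T2Space X] {Y : Set X}
    (hY : IsOpen Y) (S : ReducedComplexSpace Y)
    (h : ∀ g : C(X, ℂ), (fun y : Y => g y) ∈ S.Hol) (p : Y) : IsOpen {(p : X)} := by
  classical
  obtain ⟨n, W, Ω, V, e, hW, hpW, -, -, hchart⟩ := S.chart p
  let p0 : W := ⟨p, hpW⟩
  let W' : Set X := Subtype.val '' W
  have hW' : IsOpen W' := hY.isOpenMap_subtype_val W hW
  have hW'1 : ∀ x ∈ W', ∃ hx : x ∈ Y, (⟨x, hx⟩ : Y) ∈ W := by
    rintro x ⟨y, hy, rfl⟩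
    exact ⟨y.2, hy⟩
  let j : W' → W := fun x => ⟨⟨x, (hW'1 x x.2).1⟩, (hW'1 x x.2).2⟩
  have hj : Continuous j := by
    refine Continuous.subtype_mk (Continuous.subtype_mk continuous_subtype_val _) _
  let ρ : W → ℝ := fun w => Real.sqrt ‖(e w : Fin n → ℂ) - e p0‖
  have hρ : Continuous ρ := by
    refine Real.continuous_sqrt.comp (Continuous.norm ?_)
    exact (continuous_subtype_val.comp e.continuous).sub continuous_const
  have hpW' : (p : X) ∈ W' := ⟨p, hpW, rfl⟩
  obtain ⟨K, hK1, hK2, hK3⟩ := exists_mem_nhds_isClosed_subset (hW'.mem_nhds hpW')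
  have hKW : ∀ x : K, (x : X) ∈ W' := fun x => hK3 x.2
  let r : C(K, ℝ) := ⟨fun x => ρ (j ⟨x, hKW x⟩),
    hρ.comp (hj.comp (Continuous.subtype_mk continuous_subtype_val _))⟩
  obtain ⟨g, hg⟩ := ContinuousMap.exists_restrict_eq hK2 r
  have hgK : ∀ w : W, ((w : Y) : X) ∈ K → g w = ρ w := by
    intro w hw
    have h1 := congrArg (fun f : C(K, ℝ) => f ⟨w, hw⟩) hg
    exact h1
  have h1 := h ⟨fun x => ((g x : ℝ) : ℂ), Complex.continuous_ofReal.comp g.continuous⟩ p
  obtain ⟨F, hF, hF2⟩ := (hchart p0 _).1 h1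
  have hval : Continuous (fun w : W => ((w : Y) : X)) :=
    continuous_subtype_val.comp continuous_subtype_val
  have e1 : ∀ᶠ w : W in 𝓝 p0, ((w : Y) : X) ∈ K := hval.continuousAt hK1
  have e2 : ∀ᶠ w : W in 𝓝 p0, ((ρ w : ℝ) : ℂ) = F (e w) := by
    filter_upwards [e1, hF2] with w hw1 hw2
    rw [← hw2, ← hgK w hw1]
    rfl
  have hFp : F (e p0) = 0 := by
    rw [← e2.self_of_nhds]
    simp [ρ]
  obtain ⟨C, hC⟩ := (hF.differentiableAt.isBigO_sub).bound
  have hec : ContinuousAt (fun w : W => (e w : Fin n → ℂ)) p0 :=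
    (continuous_subtype_val.comp e.continuous).continuousAt
  have e3 : ∀ᶠ w : W in 𝓝 p0, ‖F (e w) - F (e p0)‖ ≤ C * ‖(e w : Fin n → ℂ) - e p0‖ :=
    hec.eventually hC
  have e4 : ∀ᶠ w : W in 𝓝 p0, C * ρ w < 1 := by
    have : Tendsto (fun w => C * ρ w) (𝓝 p0) (𝓝 (C * ρ p0)) :=
      (hρ.tendsto p0).const_mul C
    refine this.eventually (gt_mem_nhds ?_)
    simp [ρ]
  have e5 : ∀ᶠ w : W in 𝓝 p0, w = p0 := by
    filter_upwards [e2, e3, e4] with w h2 h3 h4
    rw [hFp, sub_zero, ← h2, Complex.norm_real, Real.norm_eq_abs,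
      abs_of_nonneg (Real.sqrt_nonneg _)] at h3
    have h5 : ‖(e w : Fin n → ℂ) - e p0‖ = ρ w * ρ w :=
      (Real.mul_self_sqrt (norm_nonneg _)).symm
    have h3' : ρ w ≤ C * (ρ w * ρ w) := by
      rw [← h5]
      exact h3
    have h6 : ρ w = 0 := by
      by_contra hne
      have hpos : 0 < ρ w := lt_of_le_of_ne (Real.sqrt_nonneg _) (Ne.symm hne)
      nlinarith
    rw [h6, mul_zero] at h5
    exact e.injective (Subtype.ext (sub_eq_zero.1 (norm_eq_zero.1 h5)))
  have h7 : IsOpen {p0} := by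
    rw [isOpen_singleton_iff_nhds_eq_pure]
    refine le_antisymm ?_ (pure_le_nhds _)
    exact Filter.le_pure_iff.2 e5
  have h8 : IsOpen (Subtype.val '' ({p0} : Set W)) := hW.isOpenMap_subtype_val _ h7
  have h9 := hY.isOpenMap_subtype_val _ h8
  have h10 : Subtype.val '' (Subtype.val '' ({p0} : Set W)) = {(p : X)} := by
    simp [p0]
  rwa [h10] at h9

theorem BB_not_locallyStein : ¬ IsLocallyStein FB := by
  rintro ⟨Y, hY, ⟨p, hp⟩, S, -, hS, -⟩
  have := spectrum_t2 FB
  let E : unitInterval ≃ₜ Spectrum FB :=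
    Continuous.homeoOfEquivCompactToT2 (f := Equiv.ofBijective evB evB_bijective) continuous_evB
  have : CompactSpace (Spectrum FB) := E.compactSpace
  have h1 : ∀ g : C(Spectrum FB, ℂ), (fun y : Y => g y) ∈ S.Hol := by
    intro g
    have h2 := hS (iota (g.comp ⟨evB, continuous_evB⟩))
    convert h2 using 1
    funext y
    obtain ⟨t, ht⟩ := evB_bijective.2 y.1
    change g y.1 = y.1.1 _
    rw [← ht]
    rfl
  have h2 := isolated hY S h1 ⟨p, hp⟩
  have h3 : IsOpen (E ⁻¹' {p}) := h2.preimage E.continuous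
  have h4 : IsClosed (E ⁻¹' {p}) := isClosed_singleton.preimage E.continuous
  have h5 : E ⁻¹' {p} = univ := by
    have : IsClopen (E ⁻¹' {p}) := ⟨h4, h3⟩
    rcases isClopen_iff.1 this with h | h
    · exfalso
      have : E.symm p ∈ E ⁻¹' {p} := by simp
      rw [h] at this
      exact this
    · exact h
  have h6 : E 0 = p := by
    have : (0 : unitInterval) ∈ E ⁻¹' {p} := by rw [h5]; trivial
    exact this
  have h7 : E 1 = p := by
    have : (1 : unitInterval) ∈ E ⁻¹' {p} := by rw [h5]; trivial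
    exact this
  exact zero_ne_one (E.injective (h6.trans h7.symm))

/-! ### The algebra is locally Stein -/

/-- The coordinate function `(z, 0)`. -/
noncomputable def zz : AA := (⟨fun z => z, differentiable_id⟩, 0)

/-- The idempotent `(1, 0)`. -/
noncomputable def ee : AA := (1, 0)

/-- Evaluation at a point of `ℂ`. -/
noncomputable def evA (l : ℂ) : Spectrum FA :=
  ⟨{ toFun := fun x => (x.1 : ℂ → ℂ) l
     map_one' := rfl
     map_mul' := fun _ _ => rfl
     map_zero' := rfl
     map_add' := fun _ _ => rfl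
     commutes' := fun _ => rfl }, ⌈‖l‖⌉₊, 1, fun x => by
      rw [one_mul]
      exact le_pp x (Nat.le_ceil ‖l‖)⟩

theorem evA_apply (l : ℂ) (x : AA) : (evA l).1 x = (x.1 : ℂ → ℂ) l := rfl

/-- The open subset of the spectrum. -/
def YY : Set (Spectrum FA) := {φ | φ.1 ee ≠ 0}

theorem continuous_apply_spec {A : Type} [CommRing A] [Algebra ℂ A] (F : FrechetAlgebra A) (x : A) :
    Continuous (fun φ : Spectrum F => φ.1 x) := by
  have h : Continuous (fun φ : Spectrum F => fun x : A => φ.1 x) := continuous_induced_dom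
  exact (continuous_apply x).comp h

theorem YY_open : IsOpen YY := isOpen_ne_fun (continuous_apply_spec FA ee) continuous_const

theorem evA_mem (l : ℂ) : evA l ∈ YY := by
  change (1 : ℂ) ≠ 0
  exact one_ne_zero

theorem ee_eq {φ : Spectrum FA} (hφ : φ ∈ YY) : φ.1 ee = 1 := by
  have h1 : ee * ee = ee := by
    refine Prod.ext ?_ ?_
    · exact one_mul _
    · exact zero_mul _
  have h2 : φ.1 ee * φ.1 ee = φ.1 ee := by rw [← map_mul, h1]
  exact mul_right_cancel₀ hφ (by rw [h2, one_mul])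

theorem eq_evA {φ : Spectrum FA} (hφ : φ ∈ YY) (x : AA) :
    φ.1 x = (x.1 : ℂ → ℂ) (φ.1 zz) := by
  set l := φ.1 zz with hl
  have h0 := ee_eq hφ
  -- the quotient
  have hG : Differentiable ℂ (dslope (x.1 : ℂ → ℂ) l) := by
    have h1 : DifferentiableOn ℂ (dslope (x.1 : ℂ → ℂ) l) univ :=
      (Complex.differentiableOn_dslope (s := univ) univ_mem).2 (Ent.diff x.1).differentiableOn
    exact differentiableOn_univ.1 h1
  let q : AA := (⟨dslope (x.1 : ℂ → ℂ) l, hG⟩, 0)
  have h2 : ee * x = ((x.1 : ℂ → ℂ) l) • ee + (zz - l • ee) * q := by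
    refine Prod.ext (Subtype.ext (funext fun z => ?_)) ?_
    · change 1 * (x.1 : ℂ → ℂ) z = (x.1 : ℂ → ℂ) l * 1 + (z - l * 1) * dslope (x.1 : ℂ → ℂ) l z
      have h3 := sub_smul_dslope (x.1 : ℂ → ℂ) l z
      rw [smul_eq_mul] at h3
      rw [mul_one l, h3]
      ring
    · ext t
      change 0 * x.2 t = (x.1 : ℂ → ℂ) l * 0 + (0 - l * 0) * 0
      ring
  have h3 := congrArg φ.1 h2
  rw [map_mul, map_add, map_mul, map_sub, map_smul, map_smul, h0, ← hl] at h3
  simpa using h3

/-- The parametrisation of the open set by `ℂ`. -/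
noncomputable def homeo : ℂ ≃ₜ YY where
  toFun l := ⟨evA l, evA_mem l⟩
  invFun y := y.1.1 zz
  left_inv l := rfl
  right_inv y := by
    refine Subtype.ext (Subtype.ext (AlgHom.ext fun x => ?_))
    exact (eq_evA y.2 x).symm
  continuous_toFun := by
    refine Continuous.subtype_mk (continuous_induced_rng.2 (continuous_pi fun x => ?_)) _
    exact (Ent.diff x.1).continuous
  continuous_invFun := (continuous_apply_spec FA zz).comp continuous_subtype_val

/-- The complex structure. -/
noncomputable def SS : ReducedComplexSpace YY where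
  holAt y := {f | ∃ F : (Fin 1 → ℂ) → ℂ, AnalyticAt ℂ F (fun _ => homeo.symm y) ∧
    ∀ᶠ w in 𝓝 y, f w = F (fun _ => homeo.symm w)}
  t2 := by
    have := spectrum_t2 FA
    infer_instance
  countableBase := homeo.symm.isEmbedding.secondCountableTopology
  chart y := by
    refine ⟨1, univ, univ, univ, (Homeomorph.Set.univ YY).trans (homeo.symm.trans
      ((Homeomorph.funUnique (Fin 1) ℂ).symm.trans (Homeomorph.Set.univ (Fin 1 → ℂ)).symm)),
      isOpen_univ, mem_univ _, isOpen_univ, ⟨subset_rfl, fun a _ => ⟨univ, isOpen_univ, mem_univ _,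
        subset_rfl, ∅, Set.finite_empty, by simp, by simp⟩⟩, fun w f => ?_⟩
    have h1 : map (Homeomorph.Set.univ YY) (𝓝 w) = 𝓝 (w : YY) :=
      (Homeomorph.Set.univ YY).map_nhds_eq w
    constructor
    · rintro ⟨F, hF1, hF2⟩
      refine ⟨F, hF1, ?_⟩
      rw [← h1] at hF2
      exact hF2
    · rintro ⟨F, hF1, hF2⟩
      refine ⟨F, hF1, ?_⟩
      rw [← h1]
      exact hF2

theorem mem_Hol (f : YY → ℂ) : f ∈ SS.Hol ↔ Differentiable ℂ (f ∘ homeo) := by
  constructor
  · intro hf l
    obtain ⟨F, hF1, hF2⟩ := hf (homeo l)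
    rw [homeo.symm_apply_apply] at hF1
    have h1 : (f ∘ homeo) =ᶠ[𝓝 l] fun w => F (fun _ => w) := by
      have := (homeo.continuous.tendsto l).eventually hF2
      filter_upwards [this] with w hw
      rw [Function.comp_apply, hw, homeo.symm_apply_apply]
    have h2 : DifferentiableAt ℂ (fun w : ℂ => F (fun _ => w)) l := by
      refine DifferentiableAt.comp (g := F) l hF1.differentiableAt ?_
      exact differentiableAt_pi.2 fun _ => differentiableAt_id
    exact h2.congr_of_eventuallyEq h1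
  · intro hf y
    refine ⟨fun v => (f ∘ homeo) (v 0), ?_, Eventually.of_forall fun w => ?_⟩
    · have h1 : AnalyticAt ℂ (f ∘ homeo) (homeo.symm y) := hf.analyticAt _
      exact AnalyticAt.fun_comp (g := f ∘ homeo) (f := fun v : Fin 1 → ℂ => v 0) h1
        ((ContinuousLinearMap.proj (R := ℂ) (φ := fun _ : Fin 1 => ℂ) 0).analyticAt _)
    · simp

theorem SS_stein : SS.IsStein := by
  have hz : (fun y : YY => homeo.symm y) ∈ SS.Hol := by
    rw [mem_Hol]
    have : (fun y : YY => homeo.symm y) ∘ homeo = fun z => z := by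
      funext z
      simp
    rw [this]
    exact differentiable_id
  refine ⟨fun y z hyz => ⟨_, hz, fun h => hyz (homeo.symm.injective h)⟩, fun K hK => ?_⟩
  have hcont : ∀ f ∈ SS.Hol, Continuous f := by
    intro f hf
    rw [mem_Hol] at hf
    have : f = (f ∘ homeo) ∘ homeo.symm := by
      funext y
      simp
    rw [this]
    exact hf.continuous.comp homeo.symm.continuous
  obtain ⟨M, hM⟩ := (hK.image homeo.symm.continuous.norm).bddAbove
  have h1 : IsCompact (homeo.symm ⁻¹' (Metric.closedBall (0 : ℂ) M)) :=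
    homeo.symm.isCompact_preimage.2 (isCompact_closedBall 0 M)
  refine h1.of_isClosed_subset ?_ ?_
  · have : {y : YY | ∀ f ∈ SS.Hol, ∀ M : ℝ, (∀ k ∈ K, ‖f k‖ ≤ M) → ‖f y‖ ≤ M} =
        ⋂ f ∈ SS.Hol, ⋂ M : ℝ, ⋂ _ : (∀ k ∈ K, ‖f k‖ ≤ M), {y | ‖f y‖ ≤ M} := by
      ext y
      simp
    rw [this]
    exact isClosed_iInter fun f => isClosed_iInter fun hf => isClosed_iInter fun M =>
      isClosed_iInter fun _ => isClosed_le (hcont f hf).norm continuous_const
  · intro y hy
    rw [Set.mem_preimage, mem_closedBall_zero_iff]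
    exact hy _ hz M fun k hk => hM ⟨k, hk, rfl⟩

theorem AA_locallyStein : IsLocallyStein FA := by
  refine ⟨YY, YY_open, ⟨evA 0, evA_mem 0⟩, SS, SS_stein, ?_, ?_⟩
  · intro x
    rw [mem_Hol]
    exact Ent.diff x.1
  · intro f
    constructor
    · intro hf
      rw [mem_Hol]
      let G : C(YY, ℂ) → C(ℂ, ℂ) := fun g => g.comp ⟨homeo, homeo.continuous⟩
      have hG : Continuous G := ContinuousMap.continuous_precomp _
      have h1 : NeBot (𝓝[Set.range (gelfand FA YY)] f) := mem_closure_iff_nhdsWithin_neBot.1 hf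
      have h2 : Tendsto G (𝓝[Set.range (gelfand FA YY)] f) (𝓝 (G f)) :=
        hG.continuousAt.mono_left nhdsWithin_le_nhds
      rw [ContinuousMap.tendsto_iff_tendstoLocallyUniformly] at h2
      have h3 : DifferentiableOn ℂ (G f) univ := by
        refine TendstoLocallyUniformlyOn.differentiableOn
          (tendstoLocallyUniformlyOn_univ.2 h2) ?_ isOpen_univ
        filter_upwards [self_mem_nhdsWithin] with g hg
        obtain ⟨x, rfl⟩ := hg
        exact (Ent.diff x.1).differentiableOn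
      exact differentiableOn_univ.1 h3
    · intro hf
      rw [mem_Hol] at hf
      refine subset_closure ⟨(⟨_, hf⟩, 0), ?_⟩
      ext y
      change y.1.1 _ = _
      rw [eq_evA y.2]
      change f (homeo (homeo.symm y)) = f y
      rw [homeo.apply_symm_apply]

/-- There are a locally Stein Fréchet algebra `A` and a closed unital subalgebra `B` of `A` which,
with the induced Fréchet algebra structure, is not locally Stein. -/
theorem result : ∃ (A : Type) (_ : CommRing A) (_ : Algebra ℂ A) (_ : Nontrivial A)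
    (F : FrechetAlgebra A) (B : Subalgebra ℂ A) (hB : IsClosedSubalgebra F B),
    IsLocallyStein F ∧ ¬ IsLocallyStein (F.restrict B hB) :=
  ⟨AA, inferInstance, inferInstance, inferInstance, FA, BB, BB_closed, AA_locallyStein,
    BB_not_locallyStein⟩

end Pool.Agent.Results.MP_591444_an.ClosedSubalgebra
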